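import Pool.Agent.R847.QB.Fib
import Pool.Agent.R847.QB.Meyer
import Pool.Agent.R847.QB.Iso
import Pool.Agent.R847.QB.Dir
import Pool.Agent.R847.QB.Mat
import Pool.Agent.R847.QB.Deg
import Pool.Agent.R847.QB.Den
import Pool.Agent.R847.QB.Ker
import Pool.Agent.R847.QB.Rank

/-!
# Families of rational quadrics of rank at least five: solvability is an open condition
-/

set_option autoImplicit false

namespace Pool.Agent.R565.QR

open Matrix Topology Filter Pool.Agent.R847.QB

/-- the theorem of Meyer for degenerate forms -/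
theorem deg' : S_DEG := deg_ (mat_ (meyer iso_ dir_))

variable {k m : ℕ}

/-- the family at a real point -/
noncomputable def rm (A : Matrix (Fin (m + 1)) (Fin (m + 1)) (MvPolynomial (Fin k) ℚ))
    (x : Fin k → ℝ) : Matrix (Fin (m + 1)) (Fin (m + 1)) ℝ := A.map fun p => MvPolynomial.aeval x p

lemma rm_rv (A : Matrix (Fin (m + 1)) (Fin (m + 1)) (MvPolynomial (Fin k) ℚ)) (t : Fin k → ℚ) :
    rm A (rv t) = (A.map (MvPolynomial.eval t)).map (algebraMap ℚ ℝ) := by
  ext i j
  simp only [rm, Matrix.map_apply]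
  exact MvPolynomial.aeval_algebraMap_apply ℝ t (A i j)

lemma rm_continuous (A : Matrix (Fin (m + 1)) (Fin (m + 1)) (MvPolynomial (Fin k) ℚ)) :
    Continuous (rm A) := by
  refine continuous_matrix fun i j => ?_
  have h : ∀ p : MvPolynomial (Fin k) ℚ, Continuous fun x : Fin k → ℝ =>
      (MvPolynomial.aeval x p : ℝ) := by
    intro p
    induction p using MvPolynomial.induction_on with
    | C a => simpa using continuous_const
    | add p q hp hq =>
      simp only [map_add]
      exact hp.add hq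
    | mul_X p i hp =>
      simp only [map_mul, MvPolynomial.aeval_X]
      exact hp.mul (continuous_apply i)
  exact h (A i j)

/-- near a solution over a point of maximal rank there are solutions over all rational points -/
theorem open_solutions (A : Matrix (Fin (m + 1)) (Fin (m + 1)) (MvPolynomial (Fin k) ℚ))
    (hA : A.IsSymm) {r : ℕ} (hr : 5 ≤ r)
    (hmax : ∀ t : Fin k → ℚ, (A.map (MvPolynomial.eval t)).rank ≤ r)
    {t0 : Fin k → ℚ} (ht0 : (A.map (MvPolynomial.eval t0)).rank = r) {w : Fin (m + 1) → ℚ}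
    (hw0 : w 0 = 1) (hw : w ⬝ᵥ (A.map (MvPolynomial.eval t0)) *ᵥ w = 0) :
    ∃ U ∈ 𝓝 (rv t0), ∀ t : Fin k → ℚ, rv t ∈ U →
      ∃ w' : Fin (m + 1) → ℚ, w' 0 = 1 ∧ w' ⬝ᵥ (A.map (MvPolynomial.eval t)) *ᵥ w' = 0 := by
  have hsymm : ∀ t : Fin k → ℚ, (A.map (MvPolynomial.eval t)).IsSymm := by
    intro t
    ext i j
    simp only [Matrix.transpose_apply, Matrix.map_apply]
    rw [hA.apply]
  have h1 := lift ker_ (rm A (rv t0)) (by rw [rm_rv]; exact map_symm (hsymm t0)) (rv w)
    (by simp [rv, hw0]) (by rw [rm_rv, rv_mulVec, rv_dot, hw]; simp) one_pos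
  have h2 := (rm_continuous A).continuousAt.eventually h1
  obtain ⟨C, D, hCD⟩ := (rank_ge_iff (A.map (MvPolynomial.eval t0))).1 (le_of_eq ht0.symm)
  have h3 : ∀ᶠ x in 𝓝 (rv t0), ((C.map (algebraMap ℚ ℝ)) * rm A x *
      (D.map (algebraMap ℚ ℝ))).det ≠ 0 := by
    have hc : Continuous fun x : Fin k → ℝ => ((C.map (algebraMap ℚ ℝ)) * rm A x *
        (D.map (algebraMap ℚ ℝ))).det :=
      ((continuous_const.matrix_mul (rm_continuous A)).matrix_mul continuous_const).matrix_det
    refine hc.continuousAt.eventually_ne ?_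
    rw [rm_rv, ← Matrix.map_mul, ← Matrix.map_mul, hCD]
    simp
  refine ⟨_, h2.and h3, fun t ht => ?_⟩
  obtain ⟨h4, h5⟩ := ht
  have h6 : r ≤ (A.map (MvPolynomial.eval t)).rank := by
    rw [rm_rv, ← Matrix.map_mul, ← Matrix.map_mul] at h5
    have h7 : (C * A.map (MvPolynomial.eval t) * D).det ≠ 0 := by
      intro h0
      apply h5
      have := RingHom.map_det (algebraMap ℚ ℝ) (C * A.map (MvPolynomial.eval t) * D)
      rw [RingHom.mapMatrix_apply, h0, map_zero] at this
      exact this.symm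
    have h8 := rank_of_det_ne_zero (A := C * A.map (MvPolynomial.eval t) * D) h7
    rw [Fintype.card_fin] at h8
    calc r = (C * A.map (MvPolynomial.eval t) * D).rank := h8.symm
      _ ≤ (A.map (MvPolynomial.eval t)).rank := (rank_mul_le_left _ _).trans (rank_mul_le_right _ _)
  obtain ⟨v', k1, k2, -⟩ := h4 (by
    rw [rm_rv, rm_rv, Pool.Agent.R847.QB.rank_map_eq, Pool.Agent.R847.QB.rank_map_eq, ht0]
    exact hmax t)
  rw [rm_rv] at k2
  obtain ⟨w', l1, l2, -⟩ := fibre_dense deg' den_ _ (hsymm t) (hr.trans h6) v' k1 k2 one_pos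
  exact ⟨w', l1, l2⟩

end Pool.Agent.R565.QR
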