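import Pool.Agent.TH783.CE.NF

/-!
# Rational numbers with a pole near a given rational number
-/

set_option autoImplicit false

namespace Pool.Agent.R565.QR

open IsDedekindDomain NumberField Pool.Agent.TH783.CE

lemma exists_above {p : ℕ} (hp : p.Prime) : ∃ v : HeightOneSpectrum (𝓞 ℚ),
    (p : 𝓞 ℚ) ∈ v.asIdeal := by
  have hu : ¬ IsUnit (p : 𝓞 ℚ) := by
    intro h
    have h1 := h.map Rat.ringOfIntegersEquiv
    rw [map_natCast] at h1
    exact (Nat.prime_iff_prime_int.1 hp).not_isUnit h1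
  obtain ⟨M, hM, hle⟩ := Ideal.exists_le_maximal (Ideal.span {(p : 𝓞 ℚ)}) (by
    rw [Ne, Ideal.span_singleton_eq_top]
    exact hu)
  have hmem : (p : 𝓞 ℚ) ∈ M := hle (Ideal.mem_span_singleton_self _)
  refine ⟨⟨M, hM.isPrime, ?_⟩, hmem⟩
  rintro rfl
  rw [Ideal.mem_bot] at hmem
  exact hp.ne_zero (by exact_mod_cast hmem)

/-- near every rational number there are rational numbers with a pole at a given prime -/
theorem exists_pole_near {Q : Set ℕ} {p : ℕ} (hp : p.Prime) (hpQ : p ∈ Q) (a : ℚ) {ε : ℝ}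
    (hε : 0 < ε) : ∃ a' : ℚ, |(a' : ℝ) - a| < ε ∧ a' ∉ NoPole ℚ Q := by
  obtain ⟨v, hv⟩ := exists_above hp
  have hp0 : (p : ℚ) ≠ 0 := Nat.cast_ne_zero.2 hp.ne_zero
  have hx1 : v.valuation ℚ (p : ℚ) < 1 := by
    have h1 := (v.valuation_lt_one_iff_mem (K := ℚ) (p : 𝓞 ℚ)).2 hv
    simpa using h1
  have hx0 : v.valuation ℚ (p : ℚ) ≠ 0 := (v.valuation ℚ).ne_zero_iff.2 hp0
  obtain ⟨n, hn⟩ : ∃ n : ℕ, v.valuation ℚ (p : ℚ) ^ n * v.valuation ℚ a < 1 := by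
    by_cases ha : v.valuation ℚ a = 0
    · exact ⟨0, by rw [ha, mul_zero]; exact zero_lt_one⟩
    · obtain ⟨n, hn⟩ := exists_pow_lt₀ hx1 (Units.mk0 _ (inv_ne_zero ha))
      refine ⟨n, ?_⟩
      rw [Units.val_mk0] at hn
      calc v.valuation ℚ (p : ℚ) ^ n * v.valuation ℚ a
          < (v.valuation ℚ a)⁻¹ * v.valuation ℚ a := by
            exact mul_lt_mul_of_pos_right hn (zero_lt_iff.2 ha)
        _ = 1 := inv_mul_cancel₀ ha
  have hp1 : (1 : ℝ) < p := by exact_mod_cast hp.one_lt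
  obtain ⟨l, hl⟩ := exists_pow_lt_of_lt_one hε (inv_lt_one_of_one_lt₀ hp1)
  set j := n + l + 1 with hj
  have h3 : v.valuation ℚ (p : ℚ) ^ j * v.valuation ℚ a < 1 := by
    have e : v.valuation ℚ (p : ℚ) ^ j * v.valuation ℚ a =
        v.valuation ℚ (p : ℚ) ^ (l + 1) * (v.valuation ℚ (p : ℚ) ^ n * v.valuation ℚ a) := by
      rw [hj, ← mul_assoc, ← pow_add]
      congr 2
      ring
    rw [e]
    exact (mul_le_of_le_one_left' (pow_le_one' hx1.le _)).trans_lt hn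
  have h4 : v.valuation ℚ (p : ℚ) ^ j < 1 := pow_lt_one' hx1 (by omega)
  have h5 : v.valuation ℚ (((p : ℚ) ^ j)⁻¹) = (v.valuation ℚ (p : ℚ) ^ j)⁻¹ := by
    rw [map_inv₀, map_pow]
  have hxj : v.valuation ℚ (p : ℚ) ^ j ≠ 0 := pow_ne_zero _ hx0
  have h6 : v.valuation ℚ a < v.valuation ℚ (((p : ℚ) ^ j)⁻¹) := by
    rw [h5, ← mul_one (v.valuation ℚ (p : ℚ) ^ j)⁻¹, ← inv_mul_cancel_left₀ hxj (v.valuation ℚ a)]
    exact mul_lt_mul_of_pos_left h3 (zero_lt_iff.2 (inv_ne_zero hxj))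
  refine ⟨a + ((p : ℚ) ^ j)⁻¹, ?_, fun hcon => ?_⟩
  · push_cast
    rw [add_sub_cancel_left, abs_of_pos (by positivity)]
    calc ((p : ℝ) ^ j)⁻¹ = (p : ℝ)⁻¹ ^ j := (inv_pow _ _).symm
      _ ≤ (p : ℝ)⁻¹ ^ l := pow_le_pow_of_le_one (by positivity)
          (inv_le_one_of_one_le₀ hp1.le) (by omega)
      _ < ε := hl
  · have h7 := hcon v ⟨p, hp, hpQ, hv⟩
    rw [Valuation.map_add_eq_of_lt_right _ h6, h5] at h7
    exact absurd h4 (not_lt.2 (by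
      rw [← inv_inv (v.valuation ℚ (p : ℚ) ^ j)]
      exact (one_le_inv₀ (zero_lt_iff.2 (inv_ne_zero hxj))).2 h7))

end Pool.Agent.R565.QR
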