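import Pool.Agent.R565.QR.Fam
import Pool.Agent.R565.QR.Pole

/-!
# Relations given by rational quadratic forms of rank at least five
-/

set_option autoImplicit false

namespace Pool.Agent.R565.QR

open Matrix Topology Filter Pool.Agent.R847.QB Pool.Agent.TH783.CE

/-- the matrix `A(a, b, w)` -/
noncomputable def spec {k m : ℕ}
    (A : Matrix (Fin (m + 1)) (Fin (m + 1)) (MvPolynomial (Fin 2 ⊕ Fin k) ℚ)) (a b : ℚ)
    (w : Fin k → ℚ) : Matrix (Fin (m + 1)) (Fin (m + 1)) ℚ :=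
  A.map (MvPolynomial.eval (Sum.elim ![a, b] w))

/-- the quadratic equation `(1, z)ᵀ A(a, b, w) (1, z) = 0` has a solution `(w, z)` -/
def Solvable {k m : ℕ}
    (A : Matrix (Fin (m + 1)) (Fin (m + 1)) (MvPolynomial (Fin 2 ⊕ Fin k) ℚ)) (a b : ℚ) : Prop :=
  ∃ (w : Fin k → ℚ) (y : Fin (m + 1) → ℚ), y 0 = 1 ∧ y ⬝ᵥ (spec A a b w) *ᵥ y = 0

section

variable {k m : ℕ} {A : Matrix (Fin (m + 1)) (Fin (m + 1)) (MvPolynomial (Fin 2 ⊕ Fin k) ℚ)}

lemma exists_sub (A : Matrix (Fin (m + 1)) (Fin (m + 1)) (MvPolynomial (Fin 2 ⊕ Fin k) ℚ))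
    (hA : A.IsSymm) (b : ℚ) :
    ∃ B : Matrix (Fin (m + 1)) (Fin (m + 1)) (MvPolynomial (Fin (k + 1)) ℚ), B.IsSymm ∧
      ∀ t : Fin (k + 1) → ℚ, B.map (MvPolynomial.eval t) = spec A (t 0) b fun i => t i.succ := by
  refine ⟨A.map (MvPolynomial.aeval (Sum.elim ![MvPolynomial.X 0, MvPolynomial.C b]
    fun i : Fin k => MvPolynomial.X i.succ) :
      MvPolynomial (Fin 2 ⊕ Fin k) ℚ →ₐ[ℚ] MvPolynomial (Fin (k + 1)) ℚ), ?_, fun t => ?_⟩
  · ext1 i j
    simp only [Matrix.transpose_apply, Matrix.map_apply]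
    rw [hA.apply]
  · ext i j
    simp only [spec, Matrix.map_apply]
    have h1 : (MvPolynomial.eval t).comp ((MvPolynomial.aeval (Sum.elim ![MvPolynomial.X 0,
        MvPolynomial.C b] fun i : Fin k => MvPolynomial.X i.succ) :
          MvPolynomial (Fin 2 ⊕ Fin k) ℚ →ₐ[ℚ] MvPolynomial (Fin (k + 1)) ℚ) :
            MvPolynomial (Fin 2 ⊕ Fin k) ℚ →+* MvPolynomial (Fin (k + 1)) ℚ) =
        MvPolynomial.eval (Sum.elim ![t 0, b] fun i => t i.succ) := by
      refine MvPolynomial.ringHom_ext (fun r => by simp) (fun s => ?_)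
      rcases s with s | s
      · fin_cases s
        · simp
        · simp
      · simp
    exact RingHom.congr_fun h1 (A i j)

/-- **Solutions of such equations over a set of elements without pole lie over the locus of
smaller rank.** -/
theorem rank_drop {Q : Set ℕ} {p : ℕ} (hp : p.Prime) (hpQ : p ∈ Q) (hA : A.IsSymm) {b : ℚ}
    (h : ∀ a, Solvable A a b → a ∈ NoPole ℚ Q) {a : ℚ} {w : Fin k → ℚ} {y : Fin (m + 1) → ℚ}
    (hy0 : y 0 = 1) (hy : y ⬝ᵥ (spec A a b w) *ᵥ y = 0) :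
    (spec A a b w).rank ≤ 4 ∨ ∃ a' w', (spec A a b w).rank < (spec A a' b w').rank := by
  by_contra hcon
  push Not at hcon
  obtain ⟨h5, hmax⟩ := hcon
  obtain ⟨B, hB, hBt⟩ := exists_sub A hA b
  have ht0 : B.map (MvPolynomial.eval (Fin.cons a w : Fin (k + 1) → ℚ)) = spec A a b w := by
    rw [hBt]
    simp
  obtain ⟨U, hU, hsol⟩ := open_solutions B hB (r := (spec A a b w).rank) (by omega)
    (fun t => by rw [hBt]; exact hmax _ _) (t0 := Fin.cons a w) (by rw [ht0]) hy0
    (by rw [ht0]; exact hy)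
  obtain ⟨ε, hε, hball⟩ := Metric.mem_nhds_iff.1 hU
  obtain ⟨a', ha', hpole⟩ := exists_pole_near hp hpQ a hε
  apply hpole
  obtain ⟨y', hy0', hy'⟩ := hsol (Fin.cons a' w) (hball (by
    rw [Metric.mem_ball, dist_pi_lt_iff hε]
    intro i
    refine Fin.cases ?_ (fun j => ?_) i
    · simp only [rv, Fin.cons_zero]
      rw [Real.dist_eq]
      exact ha'
    · simp only [rv, Fin.cons_succ, dist_self]
      exact hε))
  rw [hBt] at hy'
  exact h a' ⟨w, y', hy0', by simpa using hy'⟩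

end

/-- **Without free variables and with generic rank at least five there are only finitely many
solvable equations.** -/
theorem finite_solvable {Q : Set ℕ} {p : ℕ} (hp : p.Prime) (hpQ : p ∈ Q) {m : ℕ}
    {A : Matrix (Fin (m + 1)) (Fin (m + 1)) (MvPolynomial (Fin 2 ⊕ Fin 0) ℚ)} (hA : A.IsSymm)
    {b : ℚ} (h5 : ∃ a, 5 ≤ (spec A a b Fin.elim0).rank)
    (h : ∀ a, Solvable A a b → a ∈ NoPole ℚ Q) : {a | Solvable A a b}.Finite := by
  classical
  -- the maximal rank
  obtain ⟨r, hr, ⟨a0, ha0⟩, hmax⟩ : ∃ r, 5 ≤ r ∧ (∃ a, r = (spec A a b Fin.elim0).rank) ∧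
      ∀ a, (spec A a b Fin.elim0).rank ≤ r := by
    have hb : ∀ a, (spec A a b Fin.elim0).rank ≤ m + 1 := fun a => by
      have := Matrix.rank_le_card_width (spec A a b Fin.elim0)
      rwa [Fintype.card_fin] at this
    obtain ⟨a1, h1⟩ := h5
    have hne : (Set.range fun a => (spec A a b Fin.elim0).rank).Nonempty := ⟨_, a1, rfl⟩
    have hbd : BddAbove (Set.range fun a => (spec A a b Fin.elim0).rank) :=
      ⟨m + 1, by rintro _ ⟨a, rfl⟩; exact hb a⟩
    have hmem := Nat.sSup_mem hne hbd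
    refine ⟨sSup (Set.range fun a => (spec A a b Fin.elim0).rank), ?_, ?_, ?_⟩
    · exact h1.trans (le_csSup hbd ⟨a1, rfl⟩)
    · obtain ⟨a, ha⟩ := hmem
      exact ⟨a, ha.symm⟩
    · intro a
      exact le_csSup hbd ⟨a, rfl⟩
  obtain ⟨C, D, hCD⟩ := (rank_ge_iff (spec A a0 b Fin.elim0)).1 (le_of_eq ha0)
  let A' : Matrix (Fin (m + 1)) (Fin (m + 1)) (Polynomial ℚ) :=
    A.map (MvPolynomial.aeval (Sum.elim ![Polynomial.X, Polynomial.C b] Fin.elim0) :
      MvPolynomial (Fin 2 ⊕ Fin 0) ℚ →ₐ[ℚ] Polynomial ℚ)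
  have hA' : ∀ a, A'.map (Polynomial.evalRingHom a) = spec A a b Fin.elim0 := by
    intro a
    ext i j
    simp only [A', spec, Matrix.map_apply]
    have h1 : (Polynomial.evalRingHom a).comp ((MvPolynomial.aeval (Sum.elim ![Polynomial.X,
        Polynomial.C b] Fin.elim0) : MvPolynomial (Fin 2 ⊕ Fin 0) ℚ →ₐ[ℚ] Polynomial ℚ) :
          MvPolynomial (Fin 2 ⊕ Fin 0) ℚ →+* Polynomial ℚ) =
        MvPolynomial.eval (Sum.elim ![a, b] Fin.elim0) := by
      refine MvPolynomial.ringHom_ext (fun r => by simp) (fun s => ?_)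
      rcases s with s | s
      · fin_cases s
        · simp
        · simp
      · exact Fin.elim0 s
    exact RingHom.congr_fun h1 (A i j)
  set P : Polynomial ℚ := (C.map Polynomial.C * A' * D.map Polynomial.C).det with hP
  have hPe : ∀ a, P.eval a = (C * spec A a b Fin.elim0 * D).det := by
    intro a
    have hC : (C.map (Polynomial.C : ℚ →+* Polynomial ℚ)).map (Polynomial.evalRingHom a) = C := by
      ext i j; simp
    have hD : (D.map (Polynomial.C : ℚ →+* Polynomial ℚ)).map (Polynomial.evalRingHom a) = D := by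
      ext i j; simp
    have h1 : P.eval a = Polynomial.evalRingHom a P := rfl
    rw [h1, hP, RingHom.map_det, RingHom.mapMatrix_apply, Matrix.map_mul, Matrix.map_mul, hC, hD,
      hA']
  have hP0 : P ≠ 0 := by
    intro h0
    have h1 := hPe a0
    rw [h0, Polynomial.eval_zero, hCD, Matrix.det_one] at h1
    exact zero_ne_one h1
  refine (Polynomial.finite_setOfPred_isRoot hP0).subset ?_
  rintro a ⟨w, y, hy0, hy⟩
  obtain rfl : w = Fin.elim0 := Subsingleton.elim _ _
  show P.eval a = 0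
  by_contra hne
  rw [hPe] at hne
  have h2 := rank_of_det_ne_zero (A := C * spec A a b Fin.elim0 * D) hne
  rw [Fintype.card_fin] at h2
  have h3 : r ≤ (spec A a b Fin.elim0).rank := by
    calc r = (C * spec A a b Fin.elim0 * D).rank := h2.symm
      _ ≤ (spec A a b Fin.elim0).rank := (rank_mul_le_left _ _).trans (rank_mul_le_right _ _)
  rcases rank_drop hp hpQ hA h hy0 hy with h4 | ⟨a', w', h4⟩
  · omega
  · obtain rfl : w' = Fin.elim0 := Subsingleton.elim _ _
    have := hmax a'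
    omega

end Pool.Agent.R565.QR
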